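import Mathlib
import Pool.Agent.H254R3.NCJ.Defs
import Pool.Agent.J4H69.NCJ.Color

/-!
# Simple noncommutative Jordan algebras with `([x,y],y,y) = 0` of infinite dimension

Over every field of characteristic not two there is a unital simple noncommutative Jordan algebra
of infinite dimension with `([x,y],y,y) = 0` which is neither alternative nor a Jordan algebra.
-/

set_option autoImplicit false

namespace Pool.Agent.Results.MP_52e257_al.InfiniteOverTheField

open Pool.Agent.H254R3.NCJ

/-- Let `F` be a field of characteristic not two. There is a simple algebra `A` over `F` with a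
unit, of infinite dimension over `F`, which is a noncommutative Jordan algebra, satisfies
`([x,y],y,y) = 0`, and is neither alternative nor a Jordan algebra. -/
theorem result (F : Type) [Field F] (h2 : (2 : F) ≠ 0) :
    ∃ (A : Type) (_ : NonUnitalNonAssocRing A) (_ : Module F A),
      IsScalarTower F A A ∧ SMulCommClass F A A ∧ ¬ Module.Finite F A ∧ IsSimpleAlg F A ∧
      IsNCJordan A ∧ CommIdentity A ∧ ¬ IsAlternative A ∧ ¬ IsJordanAlg A ∧
      ∃ e : A, ∀ x : A, e * x = x ∧ x * e = x :=
  Pool.Agent.J4H69.NCJ.main F h2

end Pool.Agent.Results.MP_52e257_al.InfiniteOverTheField
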